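import Mathlib

/-!
# Ultrafilters on ℕ: basic lemmas for the Comfort-Frolik preorder
-/

open Filter Topology Set

namespace Pool.Agent.Lib.MP_254ca6_gt

/-- membership in a bind -/
theorem mem_bind {u : Ultrafilter ℕ} {f : ℕ → Ultrafilter ℕ} {s : Set ℕ} :
    s ∈ u.bind f ↔ {n | s ∈ f n} ∈ u := Iff.rfl

theorem mem_map' {u : Ultrafilter ℕ} {f : ℕ → ℕ} {s : Set ℕ} :
    s ∈ u.map f ↔ f ⁻¹' s ∈ u := Iff.rfl

theorem not_mem_iff {u : Ultrafilter ℕ} {s : Set ℕ} : s ∉ u ↔ sᶜ ∈ u :=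
  Ultrafilter.compl_mem_iff_notMem.symm

theorem exists_mem {u : Ultrafilter ℕ} {s : Set ℕ} (h : s ∈ u) : ∃ n, n ∈ s :=
  u.nonempty_of_mem h

theorem ultra_ext {u v : Ultrafilter ℕ} (h : ∀ s, s ∈ u → s ∈ v) : u = v := by
  apply Ultrafilter.coe_le_coe.mp
  intro s hs
  by_contra hc
  have h1 : sᶜ ∈ u := not_mem_iff.mp hc
  have h2 := h _ h1
  have h3 : s ∉ v := not_mem_iff.mpr h2
  exact h3 hs

theorem bind_assoc' (u : Ultrafilter ℕ) (f g : ℕ → Ultrafilter ℕ) :
    (u.bind f).bind g = u.bind (fun n => (f n).bind g) := rfl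

theorem map_bind' (u : Ultrafilter ℕ) (f : ℕ → Ultrafilter ℕ) (g : ℕ → ℕ) :
    (u.bind f).map g = u.bind (fun n => (f n).map g) := rfl

theorem bind_congr {u : Ultrafilter ℕ} {f g : ℕ → Ultrafilter ℕ} {A : Set ℕ} (hA : A ∈ u)
    (h : ∀ n ∈ A, f n = g n) : u.bind f = u.bind g := by
  apply ultra_ext
  intro s hs
  rw [mem_bind] at hs ⊢
  filter_upwards [hs, hA] with n h1 h2
  have := h n h2
  change s ∈ g n
  change s ∈ f n at h1
  rwa [← this]

theorem map_congr {u : Ultrafilter ℕ} {f g : ℕ → ℕ} {A : Set ℕ} (hA : A ∈ u)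
    (h : ∀ n ∈ A, f n = g n) : u.map f = u.map g := by
  apply ultra_ext
  intro s hs
  rw [mem_map'] at hs ⊢
  filter_upwards [hs, hA] with n h1 h2
  have := h n h2
  simp only [mem_preimage] at h1 ⊢
  rwa [← this]

theorem bind_pure' (u : Ultrafilter ℕ) (f : ℕ → ℕ) :
    u.bind (fun n => (pure (f n) : Ultrafilter ℕ)) = u.map f := by
  apply ultra_ext
  intro s hs
  rw [mem_bind] at hs
  rw [mem_map']
  filter_upwards [hs] with n h1
  simpa using h1

theorem bind_pure_id (u : Ultrafilter ℕ) :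
    u.bind (fun n => (pure n : Ultrafilter ℕ)) = u := by
  rw [bind_pure' u (fun n => n)]; rfl

theorem bind_const (u v : Ultrafilter ℕ) : u.bind (fun _ => v) = v := by
  apply ultra_ext
  intro s hs
  rw [mem_bind] at hs
  obtain ⟨n, hn⟩ := exists_mem hs
  exact hn

theorem map_const_of_fiber {u : Ultrafilter ℕ} {f : ℕ → ℕ} {k : ℕ} (h : f ⁻¹' {k} ∈ u) :
    u.map f = pure k := by
  symm
  apply ultra_ext
  intro s hs
  rw [mem_map']
  have hk : k ∈ s := by simpa using hs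
  filter_upwards [h] with n hn
  simp only [mem_preimage, mem_singleton_iff] at hn ⊢
  rwa [hn]

theorem map_map' (u : Ultrafilter ℕ) (f g : ℕ → ℕ) : (u.map f).map g = u.map (g ∘ f) := rfl

theorem eq_pure_of_mem {u : Ultrafilter ℕ} {n : ℕ} (h : {n} ∈ u) : u = pure n := by
  symm
  apply ultra_ext
  intro s hs
  have : n ∈ s := by simpa using hs
  filter_upwards [h] with m hm
  simp only [mem_singleton_iff] at hm
  rwa [hm]

/-- a member of a nonprincipal ultrafilter stays a member after removing a point -/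
theorem compl_singleton_mem {u : Ultrafilter ℕ} (hu : ∀ n, u ≠ pure n) (n : ℕ) :
    {n}ᶜ ∈ u := by
  rw [← not_mem_iff]
  intro h
  exact hu n (eq_pure_of_mem h)

/-- finite union of sets not in the ultrafilter is not in it -/
theorem compl_biUnion_mem {u : Ultrafilter ℕ} (B : ℕ → Set ℕ) (P : ℕ → Prop) (j : ℕ)
    (h : ∀ k, k < j → P k → B k ∉ u) :
    {m | ∀ k, k < j → P k → m ∉ B k} ∈ u := by
  induction j with
  | zero =>
    apply Filter.mem_of_superset (Filter.univ_mem (f := (u : Filter ℕ)))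
    intro m _ k hk
    omega
  | succ j ih =>
    have h1 := ih (fun k hk => h k (by omega))
    by_cases hP : P j
    · have h2 : (B j)ᶜ ∈ u := not_mem_iff.mp (h j (by omega) hP)
      filter_upwards [h1, h2] with m hm1 hm2
      intro k hk hPk
      rcases Nat.lt_succ_iff_lt_or_eq.mp hk with hk' | rfl
      · exact hm1 k hk' hPk
      · exact hm2
    · filter_upwards [h1] with m hm1
      intro k hk hPk
      rcases Nat.lt_succ_iff_lt_or_eq.mp hk with hk' | rfl
      · exact hm1 k hk' hPk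
      · exact absurd hPk hP

theorem lt_mem {u : Ultrafilter ℕ} (hu : ∀ n, u ≠ pure n) (n : ℕ) : {m | n ≤ m} ∈ u := by
  have := compl_biUnion_mem (u := u) (fun k => {k}) (fun _ => True) n
    (fun k _ _ => by
      intro h
      exact hu k (eq_pure_of_mem h))
  filter_upwards [this] with m hm
  by_contra hc
  exact hm m (by simpa using hc) trivial rfl

/-- disjoint witnesses from separating witnesses -/
theorem disjointify {z : ℕ → Ultrafilter ℕ} {J : Set ℕ} {B : ℕ → Set ℕ}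
    (h1 : ∀ j ∈ J, B j ∈ z j) (h2 : ∀ i ∈ J, ∀ j ∈ J, i ≠ j → B i ∉ z j) :
    ∃ h : ℕ → ℕ, ∀ j ∈ J, h ⁻¹' {j} ∈ z j := by
  classical
  refine ⟨fun n => if hn : ∃ k, k ∈ J ∧ n ∈ B k then Nat.find hn else 0, ?_⟩
  intro j hj
  have h3 := compl_biUnion_mem (u := z j) B (fun k => k ∈ J) j
    (fun k hk hkJ => h2 k hkJ j hj (by omega))
  filter_upwards [h1 j hj, h3] with m hm1 hm2
  have hex : ∃ k, k ∈ J ∧ m ∈ B k := ⟨j, hj, hm1⟩
  simp only [mem_preimage, mem_singleton_iff]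
  rw [dif_pos hex, Nat.find_eq_iff]
  refine ⟨⟨hj, hm1⟩, ?_⟩
  rintro k hk ⟨hkJ, hkB⟩
  exact hm2 k hk hkJ hkB

/-- separation of two countable families of ultrafilters -/
theorem separation {w x : ℕ → Ultrafilter ℕ} {A J : Set ℕ}
    (h1 : ∀ n ∈ A, ∃ C ∈ w n, ∀ k ∈ J, C ∉ x k)
    (h2 : ∀ k ∈ J, ∃ C ∈ x k, ∀ n ∈ A, C ∉ w n) :
    ∃ B : Set ℕ, (∀ n ∈ A, B ∈ w n) ∧ (∀ k ∈ J, B ∉ x k) := by
  classical
  choose! D hD1 hD2 using h1
  choose! C hC1 hC2 using h2
  refine ⟨{m | ∃ n, n ∈ A ∧ m ∈ D n ∧ ∀ k, k < n + 1 → k ∈ J → m ∉ C k}, ?_, ?_⟩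
  · intro n hn
    have h3 := compl_biUnion_mem (u := w n) C (fun k => k ∈ J) (n + 1)
      (fun k _ hkJ => hC2 k hkJ n hn)
    filter_upwards [hD1 n hn, h3] with m hm1 hm2
    exact ⟨n, hn, hm1, hm2⟩
  · intro k hk hB
    have h3 := compl_biUnion_mem (u := x k) D (fun n => n ∈ A) k
      (fun n _ hnA => hD2 n hnA k hk)
    obtain ⟨m, ⟨⟨n, hn, hmD, hmC⟩, hm2⟩, hm3⟩ := exists_mem (Filter.inter_mem (Filter.inter_mem hB (hC1 k hk)) h3)
    by_cases hkn : k < n + 1
    · exact hmC k hkn hk hm2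
    · exact hm3 n (by omega) hn hmD

/-- representation of a point in the closure of a discrete family -/
theorem rep_of_inCl {w : ℕ → Ultrafilter ℕ} {h : ℕ → ℕ} {A : Set ℕ}
    (hw : ∀ n ∈ A, h ⁻¹' {n} ∈ w n) {x : Ultrafilter ℕ} (hx : ∀ C ∈ x, ∃ n ∈ A, C ∈ w n) :
    A ∈ x.map h ∧ x = (x.map h).bind w := by
  have hA : A ∈ x.map h := by
    by_contra hc
    have h1 : (h ⁻¹' A)ᶜ ∈ x := not_mem_iff.mp hc
    obtain ⟨n, hn, hC⟩ := hx _ h1
    obtain ⟨m, hm1, hm2⟩ := exists_mem (Filter.inter_mem hC (hw n hn))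
    simp only [mem_preimage, mem_singleton_iff, mem_compl_iff] at hm1 hm2
    rw [hm2] at hm1
    exact hm1 hn
  refine ⟨hA, ?_⟩
  apply ultra_ext
  intro B hB
  rw [mem_bind, mem_map']
  by_contra hc
  have h1 : (h ⁻¹' {n | B ∈ w n})ᶜ ∈ x := not_mem_iff.mp hc
  obtain ⟨n, hn, hC⟩ := hx _ (Filter.inter_mem hB h1)
  obtain ⟨m, ⟨hm1, hm3⟩, hm2⟩ := exists_mem (Filter.inter_mem hC (hw n hn))
  simp only [mem_preimage, mem_singleton_iff, mem_compl_iff, mem_ofPred_eq] at hm1 hm2 hm3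
  rw [hm2] at hm3
  apply hm3
  exact Filter.mem_of_superset hC inter_subset_left

/-! ### the fixed point lemma -/

section Fix

variable (g : ℕ → ℕ)

/-- depth for the decreasing part -/
def depth (n : ℕ) : ℕ :=
  if h : g n < n then depth (g n) + 1 else 0
termination_by n

theorem depth_eq {n : ℕ} (h : g n < n) : depth g n = depth g (g n) + 1 := by
  rw [depth, dif_pos h]

/-- bounded height for the increasing part -/
def height (N n : ℕ) : ℕ :=
  if h : n < g n ∧ n ≤ N then height N (g n) + 1 else 0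
termination_by N + 1 - n

theorem height_eq {N n : ℕ} (h : n < g n) (hN : n ≤ N) :
    height g N n = height g N (g n) + 1 := by
  rw [height, dif_pos ⟨h, hN⟩]

theorem map_eq_self {v : Ultrafilter ℕ} (hv : v.map g = v) : {n | g n = n} ∈ v := by
  by_contra hc
  have h1 : {n | g n = n}ᶜ ∈ v := not_mem_iff.mp hc
  -- general contradiction from a colouring
  have key : ∀ (P : Set ℕ) (A : Set ℕ), A ∈ v → (∀ n ∈ A, (n ∈ P ↔ g n ∉ P)) → False := by
    intro P A hA hP
    by_cases hPv : P ∈ v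
    · have h2 : g ⁻¹' P ∈ v := by
        rw [← mem_map', hv]; exact hPv
      obtain ⟨n, ⟨hn1, hn2⟩, hn3⟩ := exists_mem (Filter.inter_mem (Filter.inter_mem hA hPv) h2)
      exact (hP n hn1).mp hn2 hn3
    · have hPc : Pᶜ ∈ v := not_mem_iff.mp hPv
      have h2 : g ⁻¹' Pᶜ ∈ v := by
        rw [← mem_map', hv]; exact hPc
      obtain ⟨n, ⟨hn1, hn2⟩, hn3⟩ := exists_mem (Filter.inter_mem (Filter.inter_mem hA hPc) h2)
      exact hn2 ((hP n hn1).mpr hn3)
  by_cases h2 : {n | g n < n} ∈ v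
  · apply key {n | Even (depth g n)} _ h2
    intro n hn
    simp only [mem_ofPred_eq] at hn ⊢
    rw [depth_eq g hn]
    exact Nat.even_add_one
  · have h3 : {n | n < g n} ∈ v := by
      filter_upwards [h1, not_mem_iff.mp h2] with n hn1 hn2
      simp only [mem_ofPred_eq, mem_compl_iff, not_lt] at hn1 hn2 ⊢
      omega
    apply key {n | {N | Even (height g N n)} ∈ (Filter.hyperfilter ℕ)} _ h3
    intro n hn
    simp only [mem_ofPred_eq] at hn ⊢
    rw [not_mem_iff]
    have h4 : {N | n ≤ N} ∈ (Filter.hyperfilter ℕ) := by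
      apply Filter.mem_hyperfilter_of_finite_compl
      have : {N | n ≤ N}ᶜ = Set.Iio n := by
        ext N; simp
      rw [this]
      exact Set.finite_Iio n
    constructor
    · intro h5
      filter_upwards [h4, h5] with N hN1 hN2
      simp only [mem_ofPred_eq, mem_compl_iff] at hN1 hN2 ⊢
      rw [height_eq g hn hN1] at hN2
      exact Nat.even_add_one.mp hN2
    · intro h5
      filter_upwards [h4, h5] with N hN1 hN2
      simp only [mem_ofPred_eq, mem_compl_iff] at hN1 hN2 ⊢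
      rw [height_eq g hn hN1]
      exact Nat.even_add_one.mpr hN2

end Fix

/-- gluing RK maps: `v` is not a discrete limit, along a nonprincipal ultrafilter, of ultrafilters
that are RK-above `v` -/
theorem lemmaNR {v z : Ultrafilter ℕ} {y : ℕ → Ultrafilter ℕ} {g : ℕ → ℕ} {N : Set ℕ}
    (hz : ∀ n, z ≠ pure n) (hv : v = z.bind y) (hN : N ∈ z)
    (hy : ∀ n ∈ N, g ⁻¹' {n} ∈ y n) (hRK : ∀ n ∈ N, ∃ φ : ℕ → ℕ, (y n).map φ = v) : False := by
  classical
  choose! φ hφ using hRK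
  have h1 : ∀ n ∈ N, (y n).map (fun k => φ (g k) k) = v := by
    intro n hn
    rw [← hφ n hn]
    apply map_congr (hy n hn)
    intro k hk
    simp only [mem_preimage, mem_singleton_iff] at hk
    rw [hk]
  have h2 : v.map (fun k => φ (g k) k) = v := by
    conv_lhs => rw [hv]
    rw [map_bind', bind_congr hN h1, bind_const]
  have h3 := map_eq_self _ h2
  have h4 : {n | {k | φ (g k) k = k} ∈ y n} ∈ z := by
    rw [hv] at h3
    exact h3
  have h5 : ∀ n ∈ N, {k | φ (g k) k = k} ∈ y n → y n = v := by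
    intro n hn hk
    rw [← h1 n hn]
    symm
    rw [map_congr (g := fun k => k) hk]
    · rfl
    · intro k hk; exact hk
  obtain ⟨n, hn1, hn2⟩ := exists_mem (Filter.inter_mem hN h4)
  obtain ⟨m, ⟨hm1, hm2⟩, hm3⟩ := exists_mem
    (Filter.inter_mem (Filter.inter_mem hN h4) (compl_singleton_mem hz n))
  have e1 := h5 n hn1 hn2
  have e2 := h5 m hm1 hm2
  have e3 := hy n hn1
  have e4 := hy m hm1
  rw [e1] at e3
  rw [e2] at e4
  obtain ⟨k, hk1, hk2⟩ := exists_mem (Filter.inter_mem e3 e4)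
  simp only [mem_preimage, mem_singleton_iff] at hk1 hk2
  apply hm3
  simp only [mem_singleton_iff]
  omega

end Pool.Agent.Lib.MP_254ca6_gt
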