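import Pool.Agent.Lib.MP_254ca6_gt.Basic

/-!
# The closure of the principal ultrafilters under discrete `v`-limits
-/

open Filter Topology Set

namespace Pool.Agent.Lib.MP_254ca6_gt

/-- closure of the principal ultrafilters under discrete `v`-limits -/
inductive E (v : Ultrafilter ℕ) : Ultrafilter ℕ → Prop
  | base (n : ℕ) : E v (pure n)
  | lim (g : ℕ → Ultrafilter ℕ) (h : ℕ → ℕ) (A : Set ℕ) (hA : A ∈ v)
      (hg : ∀ j ∈ A, E v (g j)) (hh : ∀ j ∈ A, h ⁻¹' {j} ∈ g j) : E v (v.bind g)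

/-- the index of the fibre of `h` that lies in `x` -/
noncomputable def idx (h : ℕ → ℕ) (x : Ultrafilter ℕ) : ℕ :=
  open Classical in if hx : ∃ j, h ⁻¹' {j} ∈ x then hx.choose else 0

theorem fibre_unique {h : ℕ → ℕ} {x : Ultrafilter ℕ} {i j : ℕ} (hi : h ⁻¹' {i} ∈ x)
    (hj : h ⁻¹' {j} ∈ x) : i = j := by
  obtain ⟨k, hk1, hk2⟩ := exists_mem (Filter.inter_mem hi hj)
  simp only [mem_preimage, mem_singleton_iff] at hk1 hk2
  omega

theorem idx_eq {h : ℕ → ℕ} {x : Ultrafilter ℕ} {j : ℕ} (hj : h ⁻¹' {j} ∈ x) : idx h x = j := by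
  have hx : ∃ j, h ⁻¹' {j} ∈ x := ⟨j, hj⟩
  rw [idx, dif_pos hx]
  exact fibre_unique hx.choose_spec hj

/-- if `w = y.bind x` and `h⁻¹{n} ∈ w` then `y` concentrates on indices `k` with `h⁻¹{n} ∈ x k` -/
theorem idx_fibre_mem {h : ℕ → ℕ} {w y : Ultrafilter ℕ} {x : ℕ → Ultrafilter ℕ} {n : ℕ}
    (hw : h ⁻¹' {n} ∈ w) (hwy : w = y.bind x) : (fun k => idx h (x k)) ⁻¹' {n} ∈ y := by
  rw [hwy, mem_bind] at hw
  filter_upwards [hw] with k hk
  exact idx_eq hk

/-- a bad representation -/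
def Bad (v ζ y : Ultrafilter ℕ) (x : ℕ → Ultrafilter ℕ) (Y : Set ℕ) (h : ℕ → ℕ) : Prop :=
  (∀ n, y ≠ pure n) ∧ (¬ ∃ φ : ℕ → ℕ, y.map φ = v) ∧ Y ∈ y ∧ (∀ k ∈ Y, E v (x k)) ∧
    (∀ k ∈ Y, h ⁻¹' {k} ∈ x k) ∧ ζ = y.bind x

theorem step {v ζ : Ultrafilter ℕ} {g : ℕ → Ultrafilter ℕ} {hg : ℕ → ℕ} {A : Set ℕ}
    (hA : A ∈ v) (hgE : ∀ j ∈ A, E v (g j)) (hgh : ∀ j ∈ A, hg ⁻¹' {j} ∈ g j)
    (hζ : ζ = v.bind g) {y : Ultrafilter ℕ} {x : ℕ → Ultrafilter ℕ} {Y : Set ℕ} {h : ℕ → ℕ}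
    (hB : Bad v ζ y x Y h) :
    {k | Bad v (x k) ((x k).map hg) g A hg} ∈ y := by
  obtain ⟨hynp, hyRK, hY, hxE, hxh, hζ2⟩ := hB
  set G0 : Set ℕ := {j | ∀ C ∈ g j, ∃ k ∈ Y, C ∈ x k} with hG0
  set X0 : Set ℕ := {k | ∀ C ∈ x k, ∃ j ∈ A, C ∈ g j} with hX0
  have claim : G0 ∈ v ∨ X0 ∈ y := by
    by_contra hc
    push Not at hc
    obtain ⟨hc1, hc2⟩ := hc
    have h1 : A ∩ G0ᶜ ∈ v := Filter.inter_mem hA (not_mem_iff.mp hc1)
    have h2 : Y ∩ X0ᶜ ∈ y := Filter.inter_mem hY (not_mem_iff.mp hc2)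
    obtain ⟨B, hB1, hB2⟩ := separation (w := g) (x := x) (A := A ∩ G0ᶜ) (J := Y ∩ X0ᶜ)
      (by
        rintro n ⟨hn1, hn2⟩
        simp only [hG0, mem_compl_iff, mem_ofPred_eq, not_forall] at hn2
        obtain ⟨C, hC1, hC2⟩ := hn2
        push Not at hC2
        exact ⟨C, hC1, fun k hk => hC2 k hk.1⟩)
      (by
        rintro k ⟨hk1, hk2⟩
        simp only [hX0, mem_compl_iff, mem_ofPred_eq, not_forall] at hk2
        obtain ⟨C, hC1, hC2⟩ := hk2
        push Not at hC2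
        exact ⟨C, hC1, fun n hn => hC2 n hn.1⟩)
    have h3 : B ∈ ζ := by
      rw [hζ, mem_bind]
      filter_upwards [h1] with j hj
      exact hB1 j hj
    rw [hζ2, mem_bind] at h3
    obtain ⟨k, hk1, hk2⟩ := exists_mem (Filter.inter_mem h3 h2)
    exact hB2 k hk2 hk1
  rcases claim with hG | hX
  · -- `v` is RK-below `y`
    exfalso
    apply hyRK
    refine ⟨fun k => idx hg (x k), ?_⟩
    have h1 : y = v.bind (fun j => (g j).map h) := by
      rw [← map_bind', ← hζ, hζ2, map_bind']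
      rw [bind_congr (g := fun k => (pure k : Ultrafilter ℕ)) hY
        (fun k hk => map_const_of_fiber (hxh k hk))]
      exact (bind_pure_id y).symm
    rw [h1, map_bind']
    rw [bind_congr (g := fun k => (pure k : Ultrafilter ℕ)) (Filter.inter_mem hG hA)]
    · exact bind_pure_id v
    · rintro j ⟨hj1, hj2⟩
      apply map_const_of_fiber
      obtain ⟨_, h3⟩ := rep_of_inCl hxh hj1
      exact idx_fibre_mem (hgh j hj2) h3
  · have h1 : v = y.bind (fun k => (x k).map hg) := by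
      rw [← map_bind', ← hζ2, hζ, map_bind']
      rw [bind_congr (g := fun k => (pure k : Ultrafilter ℕ)) hA
        (fun k hk => map_const_of_fiber (hgh k hk))]
      exact (bind_pure_id v).symm
    have hN1 : {k | ∃ φ : ℕ → ℕ, ((x k).map hg).map φ = v} ∉ y := by
      intro hN
      refine lemmaNR (v := v) (z := y) (y := fun k => (x k).map hg)
        (g := fun j => idx h (g j)) (N := ({k | ∃ φ : ℕ → ℕ, ((x k).map hg).map φ = v} ∩ X0) ∩ Y)
        hynp h1 (Filter.inter_mem (Filter.inter_mem hN hX) hY) ?_ ?_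
      · rintro k ⟨⟨hk1, hk2⟩, hk3⟩
        obtain ⟨_, h3⟩ := rep_of_inCl hgh hk2
        exact idx_fibre_mem (hxh k hk3) h3
      · rintro k ⟨⟨hk1, hk2⟩, hk3⟩
        exact hk1
    have hN2 : {k | ∃ n, (x k).map hg = pure n} ∉ y := by
      intro hN
      apply hyRK
      classical
      refine ⟨fun k => if hk : ∃ n, (x k).map hg = pure n then hk.choose else 0, ?_⟩
      rw [← bind_pure', h1]
      apply bind_congr hN
      intro k hk
      have hk' : ∃ n, (x k).map hg = pure n := hk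
      rw [dif_pos hk']
      exact hk'.choose_spec.symm
    filter_upwards [hX, not_mem_iff.mp hN1, not_mem_iff.mp hN2] with k hk1 hk2 hk3
    obtain ⟨h4, h5⟩ := rep_of_inCl hgh hk1
    refine ⟨?_, hk2, h4, hgE, hgh, h5⟩
    intro n hn
    exact hk3 ⟨n, hn⟩

theorem not_bad {v ζ : Ultrafilter ℕ} (hζ : E v ζ) :
    ∀ (y : Ultrafilter ℕ) (x : ℕ → Ultrafilter ℕ) (Y : Set ℕ) (h : ℕ → ℕ),
      ¬ Bad v ζ y x Y h := by
  have base : ∀ (n : ℕ) (y : Ultrafilter ℕ) (x : ℕ → Ultrafilter ℕ) (Y : Set ℕ) (h : ℕ → ℕ),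
      ¬ Bad v (pure n) y x Y h := by
    rintro n y x Y h ⟨hynp, hyRK, hY, hxE, hxh, hζ2⟩
    have h1 : {n} ∈ (pure n : Ultrafilter ℕ) := by simp
    rw [hζ2, mem_bind] at h1
    apply hynp (h n)
    apply eq_pure_of_mem
    filter_upwards [h1, hY] with k hk1 hk2
    have h3 := hxh k hk2
    rw [eq_pure_of_mem hk1] at h3
    simp only [mem_singleton_iff]
    have : h n = k := by simpa using h3
    exact this.symm
  induction hζ with
  | base n => exact base n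
  | lim g hg A hA hgE hgh ih =>
    intro y x Y h hB
    have h1 := step hA hgE hgh rfl hB
    obtain ⟨k, hk1, hk2⟩ := exists_mem (Filter.inter_mem h1 hB.2.2.1)
    have hxk : E v (x k) := hB.2.2.2.1 k hk2
    have hk1' : Bad v (x k) ((x k).map hg) g A hg := hk1
    generalize hξ : (x k).map hg = ξ at hk1'
    generalize hxx : x k = xk at hxk hk1'
    cases hxk with
    | base m => exact base m _ _ _ _ hk1'
    | lim g' hg' A' hA' hgE' hgh' =>
      have h2 := step hA' hgE' hgh' rfl hk1'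
      obtain ⟨j, hj1, hj2⟩ := exists_mem (Filter.inter_mem h2 hk1'.2.2.1)
      exact ih j hj2 _ _ _ _ hj1

end Pool.Agent.Lib.MP_254ca6_gt
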