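import Mathlib

/-!
# The Comfort, Comfort-Frolik and Rudin-Frolik preorders
-/

open Filter Topology

namespace Pool.Agent.Lib.MP_254ca6_gt

/-- `X` is `u`-compact: every sequence has a `u`-limit in `X` -/
def UCompact (u : Ultrafilter ℕ) (X : Type) [TopologicalSpace X] : Prop :=
  ∀ f : ℕ → X, ∃ x : X, Tendsto f u (𝓝 x)

/-- `X` is discretely `u`-compact: every injective sequence with discrete range has a `u`-limit -/
def DiscUCompact (u : Ultrafilter ℕ) (X : Type) [TopologicalSpace X] : Prop :=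
  ∀ f : ℕ → X, Function.Injective f → DiscreteTopology (Set.range f) →
    ∃ x : X, Tendsto f u (𝓝 x)

/-- Comfort preorder -/
def LeC (u v : Ultrafilter ℕ) : Prop :=
  ∀ (X : Type) [TopologicalSpace X] [T35Space X], UCompact v X → UCompact u X

/-- Comfort-Frolik preorder -/
def LeCF (u v : Ultrafilter ℕ) : Prop :=
  ∀ (X : Type) [TopologicalSpace X] [T35Space X], DiscUCompact v X → DiscUCompact u X

/-- Rudin-Frolik preorder -/
def LeRF (u v : Ultrafilter ℕ) : Prop :=
  ∃ f : ℕ → Ultrafilter ℕ, Function.Injective f ∧ DiscreteTopology (Set.range f) ∧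
    Tendsto f u (𝓝 v)

/-- selective (Ramsey) ultrafilter: nonprincipal, and every function `ℕ → ℕ` is injective or
constant on some member -/
def IsSelective (v : Ultrafilter ℕ) : Prop :=
  (∀ n, v ≠ pure n) ∧
    ∀ p : ℕ → ℕ, ∃ A ∈ v, Set.InjOn p A ∨ ∃ c, ∀ n ∈ A, p n = c

end Pool.Agent.Lib.MP_254ca6_gt
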