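import Pool.Agent.Lib.MP_254ca6_gt.Space
import Pool.Agent.Lib.MP_254ca6_gt.Defs

/-!
# Description of the Comfort-Frolik preorder
-/

open Filter Topology Set

namespace Pool.Agent.Lib.MP_254ca6_gt

/-! ### general facts on limits -/

theorem tendsto_bind_ultra (u : Ultrafilter ℕ) (f : ℕ → Ultrafilter ℕ) :
    Tendsto f u (𝓝 (u.bind f)) := by
  have := (ultrafilter_converges_iff (u := u.map f) (x := u.bind f)).mpr rfl
  exact this

theorem lim_eq_bind {u x : Ultrafilter ℕ} {f : ℕ → Ultrafilter ℕ} (h : Tendsto f u (𝓝 x)) :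
    x = u.bind f := tendsto_nhds_unique h (tendsto_bind_ultra u f)

theorem exists_lim_of_compact {K : Type} [TopologicalSpace K] [CompactSpace K]
    (v : Ultrafilter ℕ) (f : ℕ → K) : ∃ l, Tendsto f v (𝓝 l) :=
  ⟨(v.map f).lim, (v.map f).le_nhds_lim⟩

theorem tendsto_map_iff {X : Type} [TopologicalSpace X] {v : Ultrafilter ℕ} {g : ℕ → ℕ}
    {f : ℕ → X} {x : X} : Tendsto f (v.map g : Ultrafilter ℕ) (𝓝 x) ↔
      Tendsto (f ∘ g) v (𝓝 x) := by
  rw [Ultrafilter.coe_map, Filter.tendsto_map'_iff]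

theorem tendsto_bind {X : Type} [TopologicalSpace X] {v : Ultrafilter ℕ}
    {z : ℕ → Ultrafilter ℕ} {f : ℕ → X} {g : ℕ → X} {x : X}
    (h1 : ∀ n, Tendsto f (z n) (𝓝 (g n))) (h2 : Tendsto g v (𝓝 x)) :
    Tendsto f (v.bind z) (𝓝 x) := by
  rw [(nhds_basis_opens x).tendsto_right_iff]
  rintro U ⟨hxU, hU⟩
  have h3 : {n | g n ∈ U} ∈ v := h2 (hU.mem_nhds hxU)
  change {k | f k ∈ U} ∈ v.bind z
  rw [mem_bind]
  filter_upwards [h3] with n hn
  exact h1 n (hU.mem_nhds hn)

theorem tendsto_congr_on {X : Type} [TopologicalSpace X] {v : Ultrafilter ℕ} {f g : ℕ → X}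
    {A : Set ℕ} (hA : A ∈ v) (h : ∀ n ∈ A, f n = g n) {x : X} (hf : Tendsto f v (𝓝 x)) :
    Tendsto g v (𝓝 x) := by
  apply hf.congr'
  filter_upwards [hA] with n hn
  exact h n hn

theorem sep_comp {X Y : Type} [TopologicalSpace X] [TopologicalSpace Y] {i : X → Y}
    (hi : IsInducing i) {f : ℕ → X} (hf : Sep f) : Sep (fun n => i (f n)) := by
  intro k
  obtain ⟨U, hU1, hU2, hU3⟩ := hf k
  obtain ⟨V, hV1, hV2⟩ := hi.isOpen_iff.mp hU1
  subst hV2
  exact ⟨V, hV1, hU2, hU3⟩

theorem sep_comp_inj {X : Type} [TopologicalSpace X] {f : ℕ → X} (hf : Sep f) {τ : ℕ → ℕ}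
    (hτ : Function.Injective τ) : Sep (f ∘ τ) := by
  intro k
  obtain ⟨U, hU1, hU2, hU3⟩ := hf (τ k)
  exact ⟨U, hU1, hU2, fun j hj => hτ (hU3 _ hj)⟩

theorem discUCompact_iff {u : Ultrafilter ℕ} {X : Type} [TopologicalSpace X] :
    DiscUCompact u X ↔ ∀ f : ℕ → X, Sep f → ∃ x : X, Tendsto f u (𝓝 x) := by
  constructor
  · intro h f hf
    rw [sep_iff] at hf
    exact h f hf.1 hf.2
  · intro h f h1 h2
    exact h f ((sep_iff f).mpr ⟨h1, h2⟩)

/-! ### extending partial injections -/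

/-- a partial injection on a member of a nonprincipal ultrafilter agrees on a member with a total
injection -/
theorem ext_inj {v : Ultrafilter ℕ} (hv : ∀ n, v ≠ pure n) {A : Set ℕ} (hA : A ∈ v) {g : ℕ → ℕ}
    (hg : InjOn g A) : ∃ τ : ℕ → ℕ, Function.Injective τ ∧ (∀ n, ∃ a ∈ A, τ n = g a) ∧
      ∃ A' ∈ v, A' ⊆ A ∧ ∀ n ∈ A', τ n = g n := by
  classical
  have hinf : A.Infinite := by
    intro hfin
    obtain ⟨N, hN⟩ := hfin.bddAbove
    obtain ⟨m, hm1, hm2⟩ := exists_mem (Filter.inter_mem hA (lt_mem hv (N + 1)))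
    have := hN hm1
    simp only [mem_ofPred_eq] at hm2
    omega
  let ν := hinf.natEmbedding
  have key : ∃ A0 ∈ v, A0 ⊆ A ∧ ∃ μ : ℕ → ℕ, Function.Injective μ ∧ ∀ n, μ n ∈ A ∧ μ n ∉ A0 := by
    by_cases hQ : {n | ∃ k, (ν (2 * k) : ℕ) = n} ∈ v
    · refine ⟨_, Filter.inter_mem hQ hA, inter_subset_right, fun k => ν (2 * k + 1), ?_, ?_⟩
      · intro a b hab
        have := ν.injective (Subtype.ext hab)
        omega
      · intro n
        refine ⟨(ν (2 * n + 1)).2, ?_⟩
        rintro ⟨⟨k, hk⟩, _⟩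
        have := ν.injective (Subtype.ext hk)
        omega
    · refine ⟨_, Filter.inter_mem (not_mem_iff.mp hQ) hA, inter_subset_right,
        fun k => ν (2 * k), ?_, ?_⟩
      · intro a b hab
        have := ν.injective (Subtype.ext hab)
        omega
      · intro n
        refine ⟨(ν (2 * n)).2, ?_⟩
        rintro ⟨hk, _⟩
        exact hk ⟨n, rfl⟩
  obtain ⟨A0, hA0, hA0A, μ, hμ, hμA⟩ := key
  refine ⟨fun n => if n ∈ A0 then g n else g (μ n), ?_, ?_, A0, hA0, hA0A, ?_⟩
  · intro a b hab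
    by_cases ha : a ∈ A0 <;> by_cases hb : b ∈ A0
    · simp only [ha, hb, if_true] at hab
      exact hg (hA0A ha) (hA0A hb) hab
    · simp only [ha, hb, if_true, if_false] at hab
      have := hg (hA0A ha) (hμA b).1 hab
      exact absurd (this ▸ ha) (hμA b).2
    · simp only [ha, hb, if_true, if_false] at hab
      have := hg (hμA a).1 (hA0A hb) hab
      exact absurd (this.symm ▸ hb) (hμA a).2
    · simp only [ha, hb, if_false] at hab
      exact hμ (hg (hμA a).1 (hμA b).1 hab)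
  · intro n
    by_cases hn : n ∈ A0
    · exact ⟨n, hA0A hn, by simp [hn]⟩
    · exact ⟨μ n, (hμA n).1, by simp [hn]⟩
  · intro n hn
    simp [hn]

/-- isomorphism of ultrafilters, as a one-to-one image -/
def Iso (u v : Ultrafilter ℕ) : Prop := ∃ g : ℕ → ℕ, ∃ A ∈ v, InjOn g A ∧ u = v.map g

theorem Iso.symm {u v : Ultrafilter ℕ} (h : Iso u v) : Iso v u := by
  obtain ⟨g, A, hA, hg, rfl⟩ := h
  have hg' := hg.leftInvOn_invFunOn
  refine ⟨Function.invFunOn g A, g '' A, ?_, ?_, ?_⟩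
  · rw [mem_map']
    exact Filter.mem_of_superset hA (subset_preimage_image g A)
  · rintro _ ⟨a, ha, rfl⟩ _ ⟨b, hb, rfl⟩ hab
    rw [hg' ha, hg' hb] at hab
    rw [hab]
  · rw [map_map', map_congr (f := Function.invFunOn g A ∘ g) (g := fun n => n) hA
      (fun n hn => hg' hn)]
    rfl

theorem Iso.nonprincipal {u v : Ultrafilter ℕ} (h : Iso u v) (hv : ∀ n, v ≠ pure n) :
    ∀ n, u ≠ pure n := by
  intro n hn
  obtain ⟨g, A, hA, hg, rfl⟩ := h.symm
  subst hn
  apply hv (g n)
  rfl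

theorem le_cf_of_iso {u v : Ultrafilter ℕ} (hv : ∀ n, v ≠ pure n) (h : Iso u v) : LeCF u v := by
  obtain ⟨g, A, hA, hg, rfl⟩ := h
  obtain ⟨τ, hτ, _, A', hA', _, hτg⟩ := ext_inj hv hA hg
  rw [map_congr (g := τ) hA' (fun n hn => (hτg n hn).symm)]
  intro X _ _ hX
  rw [discUCompact_iff] at hX ⊢
  intro f hf
  obtain ⟨x, hx⟩ := hX (f ∘ τ) (sep_comp_inj hf hτ)
  exact ⟨x, tendsto_map_iff.mpr hx⟩

theorem le_cf_trans {u v w : Ultrafilter ℕ} (h1 : LeCF u v) (h2 : LeCF v w) : LeCF u w := by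
  intro X _ _ hX
  exact h1 X (h2 X hX)

theorem le_cf_principal (n : ℕ) (v : Ultrafilter ℕ) : LeCF (pure n) v := by
  intro X _ _ _ f _ _
  exact ⟨f n, tendsto_pure_nhds f n⟩

theorem principal_of_le_cf {u : Ultrafilter ℕ} {n : ℕ} (h : LeCF u (pure n)) :
    ∃ m, u = pure m := by
  have h1 : DiscUCompact (pure n : Ultrafilter ℕ) ℕ := by
    intro f _ _
    exact ⟨f n, tendsto_pure_nhds f n⟩
  obtain ⟨m, hm⟩ := h ℕ h1 id Function.injective_id inferInstance
  refine ⟨m, eq_pure_of_mem ?_⟩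
  have h2 : id ⁻¹' {m} ∈ (u : Filter ℕ) := hm (by simp)
  exact h2

/-! ### Comfort-Frolik is contained in Comfort -/

theorem le_c_of_le_cf {u v : Ultrafilter ℕ} (h : LeCF u v) : LeC u v := by
  intro X _ _ hX f
  have h1 : DiscUCompact v (X × Ultrafilter ℕ) := by
    intro F _ _
    obtain ⟨x, hx⟩ := hX (fun n => (F n).1)
    obtain ⟨y, hy⟩ := exists_lim_of_compact v (fun n => (F n).2)
    exact ⟨(x, y), hx.prodMk_nhds hy⟩
  have h2 := h _ h1
  rw [discUCompact_iff] at h2
  obtain ⟨⟨x, y⟩, hxy⟩ := h2 (fun n => (f n, (pure n : Ultrafilter ℕ))) (by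
    intro k
    refine ⟨Prod.snd ⁻¹' {x : Ultrafilter ℕ | {k} ∈ x}, ?_, ?_, ?_⟩
    · exact (ultrafilter_isOpen_basic {k}).preimage continuous_snd
    · simp
    · intro j hj
      simpa using hj)
  exact ⟨x, (continuous_fst.tendsto _).comp hxy⟩

theorem le_c_map (v : Ultrafilter ℕ) (g : ℕ → ℕ) : LeC (v.map g) v := by
  intro X _ _ hX f
  obtain ⟨x, hx⟩ := hX (f ∘ g)
  exact ⟨x, tendsto_map_iff.mpr hx⟩

/-! ### below a non-selective ultrafilter -/

theorem E_of_le_cf {u v : Ultrafilter ℕ} (h : LeCF u v) : E v u := by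
  have h1 : DiscUCompact v {x : Ultrafilter ℕ // E v x} := by
    rw [discUCompact_iff]
    intro f hf
    have hs := sep_comp IsInducing.subtypeVal hf
    have h2 : ∀ k, ∃ s : Set ℕ, s ∈ (f k).1 ∧ ∀ j, s ∈ (f j).1 → j = k := by
      intro k
      obtain ⟨U, hU1, hU2, hU3⟩ := hs k
      obtain ⟨t, ⟨s, rfl⟩, ht1, ht2⟩ :=
        ultrafilterBasis_is_basis.exists_subset_of_mem_open hU2 hU1
      exact ⟨s, ht1, fun j hj => hU3 j (ht2 hj)⟩
    choose s hs1 hs2 using h2
    obtain ⟨h', hh'⟩ := disjointify (z := fun j => (f j).1) (J := univ) (B := s)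
      (fun j _ => hs1 j) (fun i _ j _ hij hc => hij (hs2 i j hc).symm)
    refine ⟨⟨v.bind (fun j => (f j).1), E.lim _ h' univ Filter.univ_mem
      (fun j _ => (f j).2) hh'⟩, ?_⟩
    rw [tendsto_subtype_rng]
    exact tendsto_bind_ultra v _
  have h2 := h _ h1
  rw [discUCompact_iff] at h2
  obtain ⟨⟨x, hx⟩, hl⟩ := h2 (fun n => ⟨pure n, E.base n⟩) (by
    intro k
    refine ⟨Subtype.val ⁻¹' {x : Ultrafilter ℕ | {k} ∈ x}, ?_, ?_, ?_⟩
    · exact (ultrafilter_isOpen_basic {k}).preimage continuous_subtype_val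
    · simp
    · intro j hj
      simpa using hj)
  rw [tendsto_subtype_rng] at hl
  have h3 := lim_eq_bind hl
  simp only at h3
  rw [bind_pure_id] at h3
  rwa [← h3]

theorem le_cf_nonselective {u v : Ultrafilter ℕ} {π : ℕ → ℕ} (hπ1 : ∀ S ∈ v, ¬ InjOn π S)
    (hπ2 : ∀ c, π ⁻¹' {c} ∉ v) (h : LeCF u v) : (∃ n, u = pure n) ∨ Iso u v := by
  have hE := E_of_le_cf h
  cases hE with
  | base n => exact Or.inl ⟨n, rfl⟩
  | lim g hg A hA hgE hgh =>
    right
    by_cases hP : {j | ∃ m, g j = pure m} ∈ v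
    · have h1 : ∀ j ∈ {j | ∃ m, g j = pure m}, ∃ m, g j = pure m := fun j hj => hj
      choose! c hc using h1
      refine ⟨c, {j | ∃ m, g j = pure m} ∩ A, Filter.inter_mem hP hA, ?_, ?_⟩
      · rintro a ⟨ha1, ha2⟩ b ⟨hb1, hb2⟩ hab
        have e1 := hc a ha1
        have e2 := hc b hb1
        have f1 := hgh a ha2
        have f2 := hgh b hb2
        rw [e1] at f1
        rw [e2, ← hab] at f2
        exact fibre_unique f1 f2
      · rw [← bind_pure']
        exact bind_congr hP hc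
    · exfalso
      have hA' : A ∩ {j | ∃ m, g j = pure m}ᶜ ∈ v := Filter.inter_mem hA (not_mem_iff.mp hP)
      set A' := A ∩ {j | ∃ m, g j = pure m}ᶜ with hA'def
      have hnp : ∀ n ∈ A', ∀ m, g n ≠ pure m := by
        rintro n ⟨_, hn⟩ m hm
        exact hn ⟨m, hm⟩
      apply not_D (π := π) hA' (fun n hn => hgE n hn.1) (fun n hn => hgh n hn.1) hnp hπ1 hπ2
      -- the space
      have h1 : DiscUCompact v {κ : BB g A' π → Bool // D (BB g A' π) v κ} := by
        rw [discUCompact_iff]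
        intro f hf
        have hs := sep_comp IsInducing.subtypeVal hf
        obtain ⟨l, hl⟩ := exists_lim_of_compact v (fun n => (f n).1)
        refine ⟨⟨l, D.lim _ l (fun j => (f j).2) hs hl⟩, ?_⟩
        rw [tendsto_subtype_rng]
        exact hl
      have h2 := h _ h1
      rw [discUCompact_iff] at h2
      have hsing : ∀ m : ℕ, ({m} : Set ℕ) ∈ BB g A' π := by
        intro m n hn n' hn' _
        constructor
        · intro hc; exact absurd (eq_pure_of_mem hc) (hnp n hn m)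
        · intro hc; exact absurd (eq_pure_of_mem hc) (hnp n' hn' m)
      obtain ⟨⟨l, hl⟩, hlim⟩ := h2 (fun n => ⟨e (BB g A' π) (pure n), D.base n⟩) (by
        intro k
        refine ⟨(fun κ => κ.1 ⟨{k}, hsing k⟩) ⁻¹' {true}, ?_, ?_, ?_⟩
        · apply (isOpen_discrete ({true} : Set Bool)).preimage
          exact (continuous_apply _).comp continuous_subtype_val
        · simp [e]
        · intro j hj
          simpa [e] using hj)
      rw [tendsto_subtype_rng] at hlim
      have h3 := tendsto_nhds_unique hlim (tendsto_e (BB g A' π) (v.bind g) (fun n => pure n))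
      simp only at h3
      rw [bind_pure_id] at h3
      rw [← h3]
      exact hl

theorem le_cf_of_not_selective {u v : Ultrafilter ℕ} (hv : ∀ n, v ≠ pure n)
    (hns : ¬ IsSelective v) (h : LeCF u v) : (∃ n, u = pure n) ∨ Iso u v := by
  have h1 : ∃ p : ℕ → ℕ, ∀ A ∈ v, ¬ (InjOn p A ∨ ∃ c, ∀ n ∈ A, p n = c) := by
    by_contra hc
    push Not at hc
    exact hns ⟨hv, hc⟩
  obtain ⟨p, hp⟩ := h1
  refine le_cf_nonselective (π := p) (fun S hS hc => hp S hS (Or.inl hc)) ?_ h
  intro c hc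
  exact hp _ hc (Or.inr ⟨c, fun n hn => hn⟩)

/-! ### below a selective ultrafilter -/

theorem uCompact_of_selective {v : Ultrafilter ℕ} (hv : IsSelective v) {X : Type}
    [TopologicalSpace X] [T1Space X] (hX : DiscUCompact v X) : UCompact v X := by
  classical
  rw [discUCompact_iff] at hX
  intro f
  by_contra hno
  push Not at hno
  -- equality classes
  have hex : ∀ n, ∃ m, f m = f n := fun n => ⟨n, rfl⟩
  obtain ⟨A, hA, hAp⟩ := hv.2 (fun n => Nat.find (hex n))
  have hinj : InjOn f A := by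
    rcases hAp with h1 | ⟨c, hc⟩
    · intro a ha b hb hab
      apply h1 ha hb
      simp only [hab]
    · exfalso
      apply hno (f c)
      have h2 : ∀ n ∈ A, f c = f n := by
        intro n hn
        have h3 := Nat.find_spec (hex n)
        have h4 : Nat.find (hex n) = c := hc n hn
        rw [h4] at h3
        exact h3
      exact tendsto_congr_on (f := fun _ => f c) hA h2 tendsto_const_nhds
  have hU : ∀ n, ∃ U : Set X, IsOpen U ∧ f n ∈ U ∧ f ⁻¹' U ∉ v := by
    intro n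
    have h1 := hno (f n)
    rw [(nhds_basis_opens (f n)).tendsto_right_iff] at h1
    simp only [not_forall] at h1
    obtain ⟨U, ⟨hU1, hU2⟩, hU3⟩ := h1
    exact ⟨U, hU2, hU1, hU3⟩
  choose U hU1 hU2 hU3 using hU
  have hex2 : ∀ m, ∃ k, f m ∈ U k := fun m => ⟨m, hU2 m⟩
  obtain ⟨A', hA', hAp'⟩ := hv.2 (fun m => Nat.find (hex2 m))
  have hinj' : InjOn (fun m => Nat.find (hex2 m)) A' := by
    rcases hAp' with h1 | ⟨c, hc⟩
    · exact h1
    · exfalso
      apply hU3 c
      filter_upwards [hA'] with m hm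
      have h3 := Nat.find_spec (hex2 m)
      have h4 : Nat.find (hex2 m) = c := hc m hm
      rw [h4] at h3
      exact h3
  have hfin : ∀ n, {m | m ∈ A ∩ A' ∧ f m ∈ U n}.Finite := by
    intro n
    apply Set.Finite.of_finite_image (f := fun m => Nat.find (hex2 m))
    · apply (Set.finite_Iic n).subset
      rintro _ ⟨m, ⟨_, hm⟩, rfl⟩
      exact Nat.find_min' (hex2 m) hm
    · intro a ha b hb hab
      exact hinj' ha.1.2 hb.1.2 hab
  obtain ⟨τ, hτ, hτA, A0, hA0, _, hA0τ⟩ := ext_inj hv.1 (Filter.inter_mem hA hA') (g := fun n => n)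
    (fun a _ b _ hab => hab)
  have hsep : Sep (f ∘ τ) := by
    intro k
    obtain ⟨a, ha, hka⟩ := hτA k
    refine ⟨U a \ (f '' ({m | m ∈ A ∩ A' ∧ f m ∈ U a} \ {a})), ?_, ?_, ?_⟩
    · exact (hU1 a).sdiff (((hfin a).subset sdiff_subset).image f).isClosed
    · refine ⟨?_, ?_⟩
      · simp only [Function.comp, hka]; exact hU2 a
      · rintro ⟨m, ⟨⟨hm1, hm2⟩, hm3⟩, hm4⟩
        simp only [Function.comp, hka] at hm4
        exact hm3 (hinj hm1.1 ha.1 hm4)
    · rintro j ⟨hj1, hj2⟩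
      obtain ⟨b, hb, hjb⟩ := hτA j
      by_contra hne
      apply hj2
      refine ⟨b, ⟨⟨hb, ?_⟩, ?_⟩, ?_⟩
      · simpa only [Function.comp, hjb] using hj1
      · intro hba
        apply hne
        apply hτ
        rw [hjb, hka, hba]
      · simp only [Function.comp, hjb]
  obtain ⟨x, hx⟩ := hX _ hsep
  apply hno x
  apply tendsto_congr_on hA0 _ hx
  intro n hn
  simp only [Function.comp, hA0τ n hn]

theorem le_cf_of_le_c_selective {u v : Ultrafilter ℕ} (hv : IsSelective v) (h : LeC u v) :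
    LeCF u v := by
  intro X _ _ hX f _ _
  exact h X (uCompact_of_selective hv hX) f

/-! ### tensor products -/

/-- the tensor product of two ultrafilters, coded on ℕ -/
def tens (a b : Ultrafilter ℕ) : Ultrafilter ℕ := a.bind (fun n => b.map (fun m => Nat.pair n m))

/-- first coordinate -/
def fst (k : ℕ) : ℕ := (Nat.unpair k).1

theorem fst_fibre (b : Ultrafilter ℕ) (n : ℕ) : fst ⁻¹' {n} ∈ b.map (fun m => Nat.pair n m) := by
  rw [mem_map']
  filter_upwards [Filter.univ_mem] with m _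
  simp [fst]

theorem tens_fst (a b : Ultrafilter ℕ) : (tens a b).map fst = a := by
  rw [tens, map_bind', bind_congr (g := fun k => (pure k : Ultrafilter ℕ)) (A := univ)
    Filter.univ_mem (fun n _ => map_const_of_fiber (fst_fibre b n)), bind_pure_id]

theorem tens_nonprincipal {a : Ultrafilter ℕ} (ha : ∀ n, a ≠ pure n) (b : Ultrafilter ℕ) :
    ∀ n, tens a b ≠ pure n := by
  intro n hn
  have := tens_fst a b
  rw [hn] at this
  exact ha (fst n) this.symm

theorem tens_not_injOn (a : Ultrafilter ℕ) {b : Ultrafilter ℕ} (hb : ∀ n, b ≠ pure n) :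
    ∀ S ∈ tens a b, ¬ InjOn fst S := by
  intro S hS hinj
  rw [tens, mem_bind] at hS
  obtain ⟨n, hn⟩ := exists_mem hS
  have hn' : (fun m => Nat.pair n m) ⁻¹' S ∈ b := hn
  obtain ⟨m, hm⟩ := exists_mem hn'
  obtain ⟨m', hm'1, hm'2⟩ := exists_mem (Filter.inter_mem hn' (compl_singleton_mem hb m))
  apply hm'2
  have h1 := hinj (show Nat.pair n m' ∈ S from hm'1) (show Nat.pair n m ∈ S from hm) (by simp [fst])
  simpa using h1

theorem tens_not_const {a : Ultrafilter ℕ} (ha : ∀ n, a ≠ pure n) (b : Ultrafilter ℕ) :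
    ∀ c, fst ⁻¹' {c} ∉ tens a b := by
  intro c hc
  rw [← mem_map', tens_fst] at hc
  exact ha c (eq_pure_of_mem hc)

theorem tens_not_iso (a : Ultrafilter ℕ) {b : Ultrafilter ℕ} (hb : ∀ n, b ≠ pure n) :
    ¬ Iso (tens a b) a := by
  rintro ⟨g, A, hA, hg, h⟩
  have h1 : a.map (fst ∘ g) = a := by
    rw [← map_map', ← h, tens_fst]
  have h2 := map_eq_self _ h1
  apply tens_not_injOn a hb (g '' {n | (fst ∘ g) n = n})
  · rw [h, mem_map']
    exact Filter.mem_of_superset h2 (subset_preimage_image _ _)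
  · rintro _ ⟨n, hn, rfl⟩ _ ⟨m, hm, rfl⟩ hnm
    have hn' : fst (g n) = n := hn
    have hm' : fst (g m) = m := hm
    rw [hn', hm'] at hnm
    rw [hnm]

theorem uCompact_tens {a b : Ultrafilter ℕ} {X : Type} [TopologicalSpace X]
    (ha : UCompact a X) (hb : UCompact b X) : UCompact (tens a b) X := by
  intro f
  have h1 : ∀ n, ∃ x, Tendsto (fun m => f (Nat.pair n m)) b (𝓝 x) := fun n => hb _
  choose g hg using h1
  obtain ⟨x, hx⟩ := ha g
  exact ⟨x, tendsto_bind (fun n => tendsto_map_iff.mpr (hg n)) hx⟩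

theorem le_c_tens_left (a b : Ultrafilter ℕ) : LeC a (tens a b) := by
  have := le_c_map (tens a b) fst
  rwa [tens_fst] at this

theorem le_rf_tens_left (a b : Ultrafilter ℕ) : LeRF a (tens a b) := by
  have hs : Sep (fun n => b.map (fun m => Nat.pair n m)) := by
    intro k
    refine ⟨{x | fst ⁻¹' {k} ∈ x}, ultrafilter_isOpen_basic _, fst_fibre b k, ?_⟩
    intro j hj
    exact fibre_unique (fst_fibre b j) hj
  rw [sep_iff] at hs
  exact ⟨_, hs.1, hs.2, tendsto_bind_ultra a _⟩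

theorem not_selective_tens {a b : Ultrafilter ℕ} (ha : ∀ n, a ≠ pure n) (hb : ∀ n, b ≠ pure n) :
    ¬ IsSelective (tens a b) := by
  rintro ⟨_, h⟩
  obtain ⟨A, hA, h1 | ⟨c, hc⟩⟩ := h fst
  · exact tens_not_injOn a hb A hA h1
  · exact tens_not_const ha b c (Filter.mem_of_superset hA hc)

theorem not_le_cf_tens_left {a b : Ultrafilter ℕ} (ha : ∀ n, a ≠ pure n)
    (hb : ∀ n, b ≠ pure n) : ¬ LeCF a (tens a b) := by
  intro h
  rcases le_cf_nonselective (tens_not_injOn a hb) (tens_not_const ha b) h with ⟨n, hn⟩ | h1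
  · exact ha n hn
  · exact tens_not_iso a hb h1.symm

theorem not_le_cf_tens_right {a b : Ultrafilter ℕ} (ha : ∀ n, a ≠ pure n)
    (hb : ∀ n, b ≠ pure n) (hns : ¬ IsSelective a) : ¬ LeCF (tens a b) a := by
  intro h
  rcases le_cf_of_not_selective ha hns h with ⟨n, hn⟩ | h1
  · exact tens_nonprincipal ha b n hn
  · exact tens_not_iso a hb h1

/-! ### the answers -/

theorem exists_nonprincipal : ∃ a : Ultrafilter ℕ, ∀ n, a ≠ pure n := by
  refine ⟨Filter.hyperfilter ℕ, ?_⟩
  intro n hn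
  have h1 : {n}ᶜ ∈ Filter.hyperfilter ℕ := by
    apply Filter.mem_hyperfilter_of_finite_compl
    simp
  rw [hn] at h1
  simp at h1

/-- Comfort does not imply Comfort-Frolik -/
theorem c_not_cf : ∃ u v, LeC u v ∧ ¬ LeCF u v := by
  obtain ⟨a, ha⟩ := exists_nonprincipal
  exact ⟨a, tens a a, le_c_tens_left a a, not_le_cf_tens_left ha ha⟩

/-- Rudin-Frolik does not imply Comfort-Frolik -/
theorem rf_not_cf : ∃ u v, LeRF u v ∧ ¬ LeCF u v := by
  obtain ⟨a, ha⟩ := exists_nonprincipal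
  exact ⟨a, tens a a, le_rf_tens_left a a, not_le_cf_tens_left ha ha⟩

theorem le_rf_principal (m : ℕ) (v : Ultrafilter ℕ) : LeRF (pure m) v := by
  classical
  -- a set `S ∈ v` with infinite complement
  obtain ⟨S, hS, μ, hμ, hμS⟩ : ∃ S ∈ v, ∃ μ : ℕ → ℕ, Function.Injective μ ∧ ∀ n, μ n ∉ S := by
    by_cases hE : {n | Even n} ∈ v
    · refine ⟨_, hE, fun k => 2 * k + 1, ?_, ?_⟩
      · intro a b hab
        simp only at hab
        omega
      · intro n hn
        simp at hn
    · refine ⟨_, not_mem_iff.mp hE, fun k => 2 * k, ?_, ?_⟩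
      · intro a b hab
        simp only at hab
        omega
      · intro n hn
        apply hn
        simp
  have hs : Sep (fun k => if k = m then v else (pure (μ k) : Ultrafilter ℕ)) := by
    intro k
    by_cases hk : k = m
    · refine ⟨{x | S ∈ x}, ultrafilter_isOpen_basic _, ?_, ?_⟩
      · simp only [hk, if_true]; exact hS
      · intro j hj
        by_contra hne
        have hjm : j ≠ m := fun h => hne (h.trans hk.symm)
        simp only [hjm, if_false] at hj
        exact hμS j (by simpa using hj)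
    · refine ⟨{x | {μ k} ∈ x}, ultrafilter_isOpen_basic _, ?_, ?_⟩
      · simp [hk]
      · intro j hj
        by_cases hjm : j = m
        · exfalso
          simp only [hjm, if_true] at hj
          obtain ⟨a, ha1, ha2⟩ := exists_mem (Filter.inter_mem (show {μ k} ∈ v from hj) hS)
          simp only [mem_singleton_iff] at ha1
          rw [ha1] at ha2
          exact hμS k ha2
        · simp only [hjm, if_false] at hj
          exact hμ (by simpa using hj)
  rw [sep_iff] at hs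
  refine ⟨_, hs.1, hs.2, ?_⟩
  have h1 := tendsto_bind_ultra (pure m) (fun k => if k = m then v else (pure (μ k) : Ultrafilter ℕ))
  convert h1 using 2
  apply ultra_ext
  intro s hs
  rw [mem_bind]
  simpa using hs

theorem le_rf_of_iso {u v : Ultrafilter ℕ} (hv : ∀ n, v ≠ pure n) (h : Iso u v) : LeRF u v := by
  obtain ⟨g, A, hA, hg, hgv⟩ := h.symm
  obtain ⟨τ, hτ, _, A', hA', _, hτg⟩ := ext_inj (h.nonprincipal hv) hA hg
  rw [map_congr (g := τ) hA' (fun n hn => (hτg n hn).symm)] at hgv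
  have hs : Sep (fun n => (pure (τ n) : Ultrafilter ℕ)) := by
    intro k
    refine ⟨{x | {τ k} ∈ x}, ultrafilter_isOpen_basic _, by simp, ?_⟩
    intro j hj
    exact hτ (by simpa using hj)
  rw [sep_iff] at hs
  refine ⟨_, hs.1, hs.2, ?_⟩
  have h1 := tendsto_bind_ultra u (fun n => (pure (τ n) : Ultrafilter ℕ))
  rw [bind_pure'] at h1
  rwa [hgv]

/-- Comfort-Frolik is contained in Rudin-Frolik iff there is no selective ultrafilter -/
theorem cf_sub_rf_iff : (∀ u v, LeCF u v → LeRF u v) ↔ ¬ ∃ v, IsSelective v := by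
  constructor
  · rintro h ⟨v, hv⟩
    have h1 : LeC (tens v v) v := fun X _ _ hX => uCompact_tens hX hX
    obtain ⟨f, hf1, hf2, hf3⟩ := h _ _ (le_cf_of_le_c_selective hv h1)
    have hs := (sep_iff f).mpr ⟨hf1, hf2⟩
    have h2 : ∀ k, ∃ s : Set ℕ, s ∈ f k ∧ ∀ j, s ∈ f j → j = k := by
      intro k
      obtain ⟨U, hU1, hU2, hU3⟩ := hs k
      obtain ⟨t, ⟨s, rfl⟩, ht1, ht2⟩ :=
        ultrafilterBasis_is_basis.exists_subset_of_mem_open hU2 hU1
      exact ⟨s, ht1, fun j hj => hU3 j (ht2 hj)⟩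
    choose s hs1 hs2 using h2
    obtain ⟨h', hh'⟩ := disjointify (z := f) (J := univ) (B := s)
      (fun j _ => hs1 j) (fun i _ j _ hij hc => hij (hs2 i j hc).symm)
    have h3 : v = (tens v v).bind f := lim_eq_bind hf3
    have h4 : v.map h' = tens v v := by
      conv_lhs => rw [h3]
      rw [map_bind', bind_congr (g := fun k => (pure k : Ultrafilter ℕ)) (A := univ)
        Filter.univ_mem (fun k hk => map_const_of_fiber (hh' k hk)), bind_pure_id]
    obtain ⟨A, hA, h5 | ⟨c, hc⟩⟩ := hv.2 h'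
    · exact tens_not_iso v hv.1 ⟨h', A, hA, h5, h4.symm⟩
    · apply tens_nonprincipal hv.1 v c
      rw [← h4]
      exact map_const_of_fiber (Filter.mem_of_superset hA hc)
  · intro h u v huv
    by_cases hv : ∀ n, v ≠ pure n
    · rcases le_cf_of_not_selective hv (fun hs => h ⟨v, hs⟩) huv with ⟨n, rfl⟩ | h1
      · exact le_rf_principal n v
      · exact le_rf_of_iso hv h1
    · push Not at hv
      obtain ⟨n, rfl⟩ := hv
      obtain ⟨m, rfl⟩ := principal_of_le_cf huv
      exact le_rf_principal m _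

/-- the Comfort-Frolik preorder is tree-like iff there is no selective ultrafilter -/
theorem cf_tree_iff : (∀ v u₁ u₂, LeCF u₁ v → LeCF u₂ v → LeCF u₁ u₂ ∨ LeCF u₂ u₁) ↔
    ¬ ∃ v, IsSelective v := by
  constructor
  · rintro h ⟨v, hv⟩
    have h1 : LeCF (tens v v) v :=
      le_cf_of_le_c_selective hv (fun X _ _ hX => uCompact_tens hX hX)
    have h2 : LeCF (tens (tens v v) v) v :=
      le_cf_of_le_c_selective hv (fun X _ _ hX => uCompact_tens (uCompact_tens hX hX) hX)
    have h3 := tens_nonprincipal hv.1 v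
    rcases h _ _ _ h1 h2 with h4 | h4
    · exact not_le_cf_tens_left h3 hv.1 h4
    · exact not_le_cf_tens_right h3 hv.1 (not_selective_tens hv.1 hv.1) h4
  · intro h v u₁ u₂ h1 h2
    have key : ∀ u, LeCF u v → (∃ n, u = pure n) ∨ ((∀ n, v ≠ pure n) ∧ Iso u v) := by
      intro u hu
      by_cases hv : ∀ n, v ≠ pure n
      · rcases le_cf_of_not_selective hv (fun hs => h ⟨v, hs⟩) hu with h3 | h3
        · exact Or.inl h3
        · exact Or.inr ⟨hv, h3⟩
      · push Not at hv
        obtain ⟨n, rfl⟩ := hv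
        exact Or.inl (principal_of_le_cf hu)
    rcases key u₁ h1 with ⟨n, rfl⟩ | ⟨hv, h3⟩
    · exact Or.inl (le_cf_principal n u₂)
    · rcases key u₂ h2 with ⟨n, rfl⟩ | ⟨_, h4⟩
      · exact Or.inr (le_cf_principal n u₁)
      · left
        exact le_cf_trans (le_cf_of_iso hv h3) (le_cf_of_iso (h4.nonprincipal hv) h4.symm)

end Pool.Agent.Lib.MP_254ca6_gt
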