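import Pool.Agent.Lib.MP_254ca6_gt.Closure

/-!
# Spaces closed under discrete `v`-limits
-/

open Filter Topology Set

namespace Pool.Agent.Lib.MP_254ca6_gt

/-! ### discrete sequences -/

/-- every term has an open neighbourhood containing no other term -/
def Sep {X : Type} [TopologicalSpace X] (f : ℕ → X) : Prop :=
  ∀ k, ∃ U : Set X, IsOpen U ∧ f k ∈ U ∧ ∀ j, f j ∈ U → j = k

theorem sep_iff {X : Type} [TopologicalSpace X] (f : ℕ → X) :
    Sep f ↔ Function.Injective f ∧ DiscreteTopology (Set.range f) := by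
  constructor
  · intro hs
    refine ⟨?_, ?_⟩
    · intro a b hab
      obtain ⟨U, _, hU2, hU3⟩ := hs b
      exact hU3 a (hab ▸ hU2)
    · rw [discreteTopology_iff_isOpen_singleton]
      rintro ⟨_, k, rfl⟩
      obtain ⟨U, hU1, hU2, hU3⟩ := hs k
      rw [isOpen_induced_iff]
      refine ⟨U, hU1, ?_⟩
      ext ⟨_, j, rfl⟩
      simp only [mem_preimage, mem_singleton_iff, Subtype.ext_iff]
      constructor
      · intro h; rw [hU3 j h]
      · intro h
        change f j = f k at h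
        rw [h]; exact hU2
  · rintro ⟨hinj, hd⟩ k
    rw [discreteTopology_iff_isOpen_singleton] at hd
    have h1 := hd ⟨f k, k, rfl⟩
    rw [isOpen_induced_iff] at h1
    obtain ⟨U, hU1, hU2⟩ := h1
    refine ⟨U, hU1, ?_, ?_⟩
    · have : (⟨f k, k, rfl⟩ : Set.range f) ∈ Subtype.val ⁻¹' U := by rw [hU2]; rfl
      exact this
    · intro j hj
      have : (⟨f j, j, rfl⟩ : Set.range f) ∈ Subtype.val ⁻¹' U := hj
      rw [hU2] at this
      exact hinj (Subtype.ext_iff.mp this)

/-! ### the embedding into a Cantor cube -/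

/-- restriction of an ultrafilter to the family `B` -/
noncomputable def e (B : Set (Set ℕ)) (x : Ultrafilter ℕ) : B → Bool :=
  open Classical in fun b => decide (b.1 ∈ x)

theorem e_eq_iff {B : Set (Set ℕ)} {x y : Ultrafilter ℕ} :
    e B x = e B y ↔ ∀ b ∈ B, (b ∈ x ↔ b ∈ y) := by
  constructor
  · intro h b hb
    have := congrFun h ⟨b, hb⟩
    simpa [e] using this
  · intro h
    funext ⟨b, hb⟩
    simpa [e] using h b hb

theorem tendsto_e (B : Set (Set ℕ)) (v : Ultrafilter ℕ) (z : ℕ → Ultrafilter ℕ) :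
    Tendsto (fun j => e B (z j)) v (𝓝 (e B (v.bind z))) := by
  rw [tendsto_pi_nhds]
  rintro ⟨b, hb⟩
  apply tendsto_nhds_of_eventually_eq
  by_cases h : b ∈ v.bind z
  · have h1 : {n | b ∈ z n} ∈ v := h
    filter_upwards [h1] with n hn
    have h2 : b ∈ z n := hn
    simp [e, h, h2]
  · have h1 : {n | b ∈ z n}ᶜ ∈ v := not_mem_iff.mp h
    filter_upwards [h1] with n hn
    have h2 : b ∉ z n := hn
    simp [e, h, h2]

theorem lim_e {B : Set (Set ℕ)} {v : Ultrafilter ℕ} {κ : ℕ → B → Bool} {l : B → Bool}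
    (hl : Tendsto κ v (𝓝 l)) {z : ℕ → Ultrafilter ℕ} {J : Set ℕ} (hJ : J ∈ v)
    (hz : ∀ j ∈ J, κ j = e B (z j)) : l = e B (v.bind z) := by
  apply tendsto_nhds_unique hl
  apply (tendsto_e B v z).congr'
  filter_upwards [hJ] with j hj
  exact (hz j hj).symm

/-- closure of the principal points under `v`-limits of discrete sequences, in the Cantor cube -/
inductive D (B : Set (Set ℕ)) (v : Ultrafilter ℕ) : (B → Bool) → Prop
  | base (n : ℕ) : D B v (e B (pure n))
  | lim (κ : ℕ → B → Bool) (l : B → Bool) (hD : ∀ j, D B v (κ j)) (hs : Sep κ)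
      (hl : Tendsto κ v (𝓝 l)) : D B v l

/-! ### the family attached to `w` and `π` -/

/-- sets that do not distinguish `w n` and `w m` when `π n = π m` -/
def BB (w : ℕ → Ultrafilter ℕ) (A : Set ℕ) (π : ℕ → ℕ) : Set (Set ℕ) :=
  {b | ∀ n ∈ A, ∀ m ∈ A, π n = π m → (b ∈ w n ↔ b ∈ w m)}

theorem basic_nhds {w : ℕ → Ultrafilter ℕ} {A : Set ℕ} {π : ℕ → ℕ} {x : Ultrafilter ℕ}
    {U : Set (BB w A π → Bool)} (hU : IsOpen U) (hx : e (BB w A π) x ∈ U) :
    ∃ b ∈ BB w A π, b ∈ x ∧ ∀ y : Ultrafilter ℕ, b ∈ y → e (BB w A π) y ∈ U := by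
  rw [isOpen_pi_iff] at hU
  obtain ⟨I, u, hu1, hu2⟩ := hU _ hx
  have key : ∀ y : Ultrafilter ℕ, {m : ℕ | ∀ c ∈ I, (m ∈ c.1 ↔ c.1 ∈ x)} ∈ y ↔
      ∀ c ∈ I, (c.1 ∈ y ↔ c.1 ∈ x) := by
    intro y
    have h1 : {m : ℕ | ∀ c ∈ I, (m ∈ c.1 ↔ c.1 ∈ x)} = ⋂ c ∈ I, {m : ℕ | (m ∈ c.1 ↔ c.1 ∈ x)} := by
      ext m; simp
    rw [h1]
    have h2 : (⋂ c ∈ I, {m : ℕ | (m ∈ c.1 ↔ c.1 ∈ x)}) ∈ (y : Filter ℕ) ↔
        ∀ c ∈ I, {m : ℕ | (m ∈ c.1 ↔ c.1 ∈ x)} ∈ (y : Filter ℕ) :=
      Filter.biInter_finset_mem I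
    rw [← Ultrafilter.mem_coe, h2]
    refine forall₂_congr ?_
    intro c _
    by_cases hc : c.1 ∈ x
    · simp [hc]
    · simp only [hc, iff_false]
      exact Ultrafilter.compl_mem_iff_notMem
  refine ⟨{m : ℕ | ∀ c ∈ I, (m ∈ c.1 ↔ c.1 ∈ x)}, ?_, ?_, ?_⟩
  · intro n hn m hm hnm
    rw [key, key]
    refine forall₂_congr ?_
    intro c _
    rw [c.2 n hn m hm hnm]
  · rw [key]
    intro c _
    exact Iff.rfl
  · intro y hy
    rw [key] at hy
    apply hu2
    intro c hc
    have h1 : e (BB w A π) y c = e (BB w A π) x c := by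
      simp only [e, decide_eq_decide]
      exact hy c hc
    rw [h1]
    exact (hu1 c hc).2

/-- separation of a discrete sequence by members of the family -/
theorem sep_family {w : ℕ → Ultrafilter ℕ} {A : Set ℕ} {π : ℕ → ℕ} {κ : ℕ → BB w A π → Bool}
    (hs : Sep κ) {J : Set ℕ} {z : ℕ → Ultrafilter ℕ} (hz : ∀ j ∈ J, κ j = e (BB w A π) (z j)) :
    ∃ b : ℕ → Set ℕ, (∀ j ∈ J, b j ∈ BB w A π) ∧ (∀ j ∈ J, b j ∈ z j) ∧
      ∀ i ∈ J, ∀ j ∈ J, i ≠ j → b i ∉ z j := by
  have h1 : ∀ j ∈ J, ∃ b ∈ BB w A π, b ∈ z j ∧ ∀ i ∈ J, j ≠ i → b ∉ z i := by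
    intro j hj
    obtain ⟨U, hU1, hU2, hU3⟩ := hs j
    rw [hz j hj] at hU2
    obtain ⟨b, hb1, hb2, hb3⟩ := basic_nhds hU1 hU2
    refine ⟨b, hb1, hb2, ?_⟩
    intro i hi hij hbi
    have := hb3 _ hbi
    rw [← hz i hi] at this
    exact hij (hU3 i this).symm
  choose! b hb1 hb2 hb3 using h1
  exact ⟨b, hb1, hb2, fun i hi j hj hij => hb3 i hi j hj hij⟩

section Main

variable {v : Ultrafilter ℕ} {w : ℕ → Ultrafilter ℕ} {h : ℕ → ℕ} {A : Set ℕ} {π : ℕ → ℕ}

/-- the dichotomy for points of the space -/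
def Dich (v : Ultrafilter ℕ) (w : ℕ → Ultrafilter ℕ) (A : Set ℕ) (π : ℕ → ℕ)
    (κ : BB w A π → Bool) : Prop :=
  (∃ y : Ultrafilter ℕ, A ∈ y ∧ κ = e (BB w A π) (y.bind w)) ∨
    (∃ x : Ultrafilter ℕ, E v x ∧ κ = e (BB w A π) x ∧ ∃ C ∈ x, ∀ n ∈ A, C ∉ w n)

theorem dich_split {κ : ℕ → BB w A π → Bool} (hκ : ∀ j, Dich v w A π (κ j)) :
    (∃ J ∈ v, ∃ y : ℕ → Ultrafilter ℕ, ∀ j ∈ J, A ∈ y j ∧ κ j = e (BB w A π) ((y j).bind w)) ∨
    (∃ J ∈ v, ∃ x : ℕ → Ultrafilter ℕ, ∀ j ∈ J, E v (x j) ∧ κ j = e (BB w A π) (x j) ∧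
      ∃ C ∈ x j, ∀ n ∈ A, C ∉ w n) := by
  by_cases hL : {j | ∃ y : Ultrafilter ℕ, A ∈ y ∧ κ j = e (BB w A π) (y.bind w)} ∈ v
  · left
    refine ⟨_, hL, ?_⟩
    have : ∀ j ∈ {j | ∃ y : Ultrafilter ℕ, A ∈ y ∧ κ j = e (BB w A π) (y.bind w)},
      ∃ y : Ultrafilter ℕ, A ∈ y ∧ κ j = e (BB w A π) (y.bind w) := fun j hj => hj
    choose! y hy using this
    exact ⟨y, hy⟩
  · right
    refine ⟨_, not_mem_iff.mp hL, ?_⟩
    have : ∀ j ∈ {j | ∃ y : Ultrafilter ℕ, A ∈ y ∧ κ j = e (BB w A π) (y.bind w)}ᶜ,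
      ∃ x : Ultrafilter ℕ, E v x ∧ κ j = e (BB w A π) x ∧ ∃ C ∈ x, ∀ n ∈ A, C ∉ w n := by
      intro j hj
      rcases hκ j with h1 | h1
      · exact absurd h1 hj
      · exact h1
    choose! x hx using this
    exact ⟨x, hx⟩

theorem dich_of_D (hw : ∀ n ∈ A, h ⁻¹' {n} ∈ w n) (hnp : ∀ n ∈ A, ∀ m, w n ≠ pure m)
    {κ : BB w A π → Bool} (hκ : D (BB w A π) v κ) : Dich v w A π κ := by
  induction hκ with
  | base m =>
    right
    refine ⟨pure m, E.base m, rfl, {m}, by simp, ?_⟩
    intro n hn hm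
    exact hnp n hn m (eq_pure_of_mem hm)
  | lim κ l hD hs hl ih =>
    rcases dich_split ih with ⟨J, hJ, y, hy⟩ | ⟨J, hJ, x, hx⟩
    · left
      refine ⟨v.bind y, ?_, ?_⟩
      · rw [mem_bind]
        filter_upwards [hJ] with j hj
        exact (hy j hj).1
      · rw [bind_assoc']
        exact lim_e hl hJ (fun j hj => (hy j hj).2)
    · have hl' : l = e (BB w A π) (v.bind x) := lim_e hl hJ (fun j hj => (hx j hj).2.1)
      obtain ⟨b, hb1, hb2, hb3⟩ := sep_family hs (fun j hj => (hx j hj).2.1)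
      obtain ⟨h', hh'⟩ := disjointify hb2 hb3
      have hE : E v (v.bind x) := E.lim x h' J hJ (fun j hj => (hx j hj).1) hh'
      by_cases hcl : ∃ C ∈ v.bind x, ∀ n ∈ A, C ∉ w n
      · right
        exact ⟨v.bind x, hE, hl', hcl⟩
      · left
        push Not at hcl
        obtain ⟨h1, h2⟩ := rep_of_inCl hw hcl
        refine ⟨(v.bind x).map h, h1, ?_⟩
        rw [← h2]
        exact hl'

/-- the main exclusion: `e (v.bind w)` is not in the space -/
theorem not_D (hA : A ∈ v) (hwE : ∀ n ∈ A, E v (w n)) (hw : ∀ n ∈ A, h ⁻¹' {n} ∈ w n)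
    (hnp : ∀ n ∈ A, ∀ m, w n ≠ pure m) (hπ1 : ∀ S ∈ v, ¬ InjOn π S)
    (hπ2 : ∀ c, π ⁻¹' {c} ∉ v) : ¬ D (BB w A π) v (e (BB w A π) (v.bind w)) := by
  intro hD
  generalize hκ0 : e (BB w A π) (v.bind w) = κ0 at hD
  cases hD with
  | base m =>
    rw [e_eq_iff] at hκ0
    have h1 : {m} ∈ BB w A π := by
      intro n hn n' hn' _
      constructor
      · intro hc; exact absurd (eq_pure_of_mem hc) (hnp n hn m)
      · intro hc; exact absurd (eq_pure_of_mem hc) (hnp n' hn' m)
    have h2 := (hκ0 _ h1).mpr (by simp)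
    rw [mem_bind] at h2
    obtain ⟨n, hn1, hn2⟩ := exists_mem (Filter.inter_mem h2 hA)
    exact hnp n hn2 m (eq_pure_of_mem hn1)
  | lim κ l hD hs hl =>
    rcases dich_split (fun j => dich_of_D hw hnp (hD j)) with ⟨J, hJ, y, hy⟩ | ⟨J, hJ, x, hx⟩
    · -- case L
      have hl' : κ0 = e (BB w A π) (v.bind (fun j => (y j).bind w)) :=
        lim_e hl hJ (fun j hj => (hy j hj).2)
      rw [← bind_assoc'] at hl'
      obtain ⟨b, hb1, hb2, hb3⟩ := sep_family hs (fun j hj => (hy j hj).2)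
      -- projections
      set β : ℕ → Set ℕ := fun j => {s | ∃ n ∈ A, π n = s ∧ b j ∈ w n} with hβ
      have hβ1 : ∀ j ∈ J, ∀ n ∈ A, (b j ∈ w n ↔ π n ∈ β j) := by
        intro j hj n hn
        constructor
        · intro hb; exact ⟨n, hn, rfl, hb⟩
        · rintro ⟨m, hm, hmn, hb⟩
          exact (hb1 j hj m hm n hn hmn).mp hb
      have hβ2 : ∀ j ∈ J, ∀ i ∈ J, (b j ∈ (y i).bind w ↔ β j ∈ (y i).map π) := by
        intro j hj i hi
        rw [mem_bind, mem_map']
        constructor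
        · intro h1
          filter_upwards [h1, (hy i hi).1] with n hn1 hn2
          exact (hβ1 j hj n hn2).mp hn1
        · intro h1
          filter_upwards [h1, (hy i hi).1] with n hn1 hn2
          exact (hβ1 j hj n hn2).mpr hn1
      obtain ⟨h'', hh''⟩ := disjointify (z := fun j => (y j).map π) (J := J) (B := β)
        (fun j hj => (hβ2 j hj j hj).mp (hb2 j hj))
        (fun i hi j hj hij hc => hb3 i hi j hj hij ((hβ2 i hi j hj).mpr hc))
      have hAy : A ∈ v.bind y := by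
        rw [mem_bind]
        filter_upwards [hJ] with j hj
        exact (hy j hj).1
      have hπv : v.map π = (v.bind y).map π := by
        apply ultra_ext
        intro S hS
        rw [mem_map'] at hS ⊢
        have hS1 : ∀ n ∈ A, (h ⁻¹' (π ⁻¹' S) ∈ w n ↔ π n ∈ S) := by
          intro n hn
          constructor
          · intro hc
            obtain ⟨k, hk1, hk2⟩ := exists_mem (Filter.inter_mem hc (hw n hn))
            simp only [mem_preimage, mem_singleton_iff] at hk1 hk2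
            rwa [hk2] at hk1
          · intro hc
            filter_upwards [hw n hn] with k hk
            simp only [mem_preimage, mem_singleton_iff] at hk ⊢
            rwa [hk]
        have hSB : h ⁻¹' (π ⁻¹' S) ∈ BB w A π := by
          intro n hn m hm hnm
          rw [hS1 n hn, hS1 m hm, hnm]
        have hSu : h ⁻¹' (π ⁻¹' S) ∈ v.bind w := by
          rw [mem_bind]
          filter_upwards [hS, hA] with n hn1 hn2
          exact (hS1 n hn2).mpr hn1
        rw [hl'] at hκ0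
        have h3 := (e_eq_iff.mp hκ0 _ hSB).mp hSu
        rw [mem_bind] at h3
        filter_upwards [h3, hAy] with n hn1 hn2
        exact (hS1 n hn2).mp hn1
      have h4 : v.map (h'' ∘ π) = v := by
        rw [← map_map', hπv, map_map', map_bind']
        rw [bind_congr (g := fun k => (pure k : Ultrafilter ℕ)) hJ
          (fun k hk => ?_)]
        · exact bind_pure_id v
        · rw [← map_map']
          exact map_const_of_fiber (hh'' k hk)
      have h5 := map_eq_self _ h4
      apply hπ1 _ h5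
      intro a ha b hb hab
      have ha' : h'' (π a) = a := ha
      have hb' : h'' (π b) = b := hb
      rw [← ha', ← hb', hab]
    · -- case R
      have hl' : κ0 = e (BB w A π) (v.bind x) :=
        lim_e hl hJ (fun j hj => (hx j hj).2.1)
      rw [hl'] at hκ0
      obtain ⟨b, hb1, hb2, hb3⟩ := sep_family hs (fun j hj => (hx j hj).2.1)
      obtain ⟨h', hh'⟩ := disjointify hb2 hb3
      set y : ℕ → Ultrafilter ℕ := fun n => (w n).map h' with hy
      set F : Set ℕ → Set ℕ → Set ℕ := fun J' S =>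
        {n | n ∈ A ∧ π n ∈ S ∧ J' ∩ J ∈ y n ∧ w n = (y n).bind x} with hF
      have claim : ∀ J' ∈ v, ∀ S, π ⁻¹' S ∈ v → (F J' S).Nonempty := by
        intro J' hJ' S hS
        by_contra hne
        rw [Set.not_nonempty_iff_eq_empty] at hne
        have hne' : ∀ n ∈ A, π n ∈ S → ¬ (J' ∩ J ∈ y n ∧ w n = (y n).bind x) := by
          intro n hn hnS hc
          have : n ∈ F J' S := ⟨hn, hnS, hc.1, hc.2⟩
          rw [hne] at this
          exact this
        obtain ⟨B, hB1, hB2⟩ := separation (w := w) (x := x) (A := A ∩ π ⁻¹' S) (J := J' ∩ J)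
          (by
            rintro n ⟨hn1, hn2⟩
            by_contra hc
            push Not at hc
            exact hne' n hn1 hn2 (rep_of_inCl (fun k hk => hh' k hk.2) hc))
          (by
            rintro k ⟨hk1, hk2⟩
            obtain ⟨C, hC1, hC2⟩ := (hx k hk2).2.2
            exact ⟨C, hC1, fun n hn => hC2 n hn.1⟩)
        have hB' : ∀ n ∈ A, (B ∩ h ⁻¹' (A ∩ π ⁻¹' S) ∈ w n ↔ π n ∈ S) := by
          intro n hn
          constructor
          · intro hc
            obtain ⟨k, hk1, hk2⟩ := exists_mem (Filter.inter_mem hc (hw n hn))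
            have hk3 : h k = n := hk2
            have hk4 : h k ∈ A ∩ π ⁻¹' S := hk1.2
            rw [hk3] at hk4
            exact hk4.2
          · intro hc
            filter_upwards [hw n hn, hB1 n ⟨hn, hc⟩] with k hk1 hk2
            refine ⟨hk2, ?_⟩
            have hk3 : h k = n := hk1
            change h k ∈ A ∩ π ⁻¹' S
            rw [hk3]
            exact ⟨hn, hc⟩
        have hBB : B ∩ h ⁻¹' (A ∩ π ⁻¹' S) ∈ BB w A π := by
          intro n hn m hm hnm
          rw [hB' n hn, hB' m hm, hnm]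
        have hBu : B ∩ h ⁻¹' (A ∩ π ⁻¹' S) ∈ v.bind w := by
          rw [mem_bind]
          filter_upwards [hA, hS] with n hn1 hn2
          exact (hB' n hn1).mpr hn2
        have h3 := (e_eq_iff.mp hκ0 _ hBB).mp hBu
        rw [mem_bind] at h3
        obtain ⟨k, hk1, hk2⟩ := exists_mem (Filter.inter_mem h3 (Filter.inter_mem hJ' hJ))
        exact hB2 k hk2 (Filter.mem_of_superset hk1 inter_subset_left)
      -- the filter generated
      let Z : Filter ℕ :=
        { sets := {T | ∃ J' ∈ v, ∃ S, π ⁻¹' S ∈ v ∧ F J' S ⊆ T}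
          univ_sets := ⟨univ, Filter.univ_mem, univ,
            by rw [preimage_univ]; exact Filter.univ_mem, subset_univ _⟩
          sets_of_superset := by
            rintro T T' ⟨J', hJ', S, hS, hT⟩ hTT'
            exact ⟨J', hJ', S, hS, hT.trans hTT'⟩
          inter_sets := by
            rintro T T' ⟨J1, hJ1, S1, hS1, hT1⟩ ⟨J2, hJ2, S2, hS2, hT2⟩
            refine ⟨J1 ∩ J2, Filter.inter_mem hJ1 hJ2, S1 ∩ S2, ?_, ?_⟩
            · rw [preimage_inter]; exact Filter.inter_mem hS1 hS2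
            · rintro n ⟨hn1, hn2, hn3, hn4⟩
              constructor
              · apply hT1
                refine ⟨hn1, hn2.1, ?_, hn4⟩
                exact Filter.mem_of_superset hn3 (fun a ha => ⟨ha.1.1, ha.2⟩)
              · apply hT2
                refine ⟨hn1, hn2.2, ?_, hn4⟩
                exact Filter.mem_of_superset hn3 (fun a ha => ⟨ha.1.2, ha.2⟩) }
      have hZ : ∀ T, T ∈ Z ↔ ∃ J' ∈ v, ∃ S, π ⁻¹' S ∈ v ∧ F J' S ⊆ T := fun T => Iff.rfl
      have hZne : Z.NeBot := by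
        rw [Filter.neBot_iff]
        intro hbot
        have h1 : (∅ : Set ℕ) ∈ Z := by rw [hbot]; exact Filter.mem_bot
        rw [hZ] at h1
        obtain ⟨J', hJ', S, hS, hT⟩ := h1
        obtain ⟨n, hn⟩ := claim J' hJ' S hS
        exact hT hn
      obtain ⟨z, hz⟩ := Ultrafilter.exists_le Z
      have hzF : ∀ J' ∈ v, ∀ S, π ⁻¹' S ∈ v → F J' S ∈ z := by
        intro J' hJ' S hS
        apply hz
        rw [hZ]
        exact ⟨J', hJ', S, hS, Subset.rfl⟩
      have hzv : v = z.bind y := by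
        apply ultra_ext
        intro J' hJ'
        rw [mem_bind]
        filter_upwards [hzF J' hJ' univ (by rw [preimage_univ]; exact Filter.univ_mem)] with n hn
        exact Filter.mem_of_superset hn.2.2.1 inter_subset_left
      have hznp : ∀ n, z ≠ pure n := by
        rintro n rfl
        by_cases hS : π ⁻¹' {π n} ∈ v
        · exact hπ2 _ hS
        · have h1 : π ⁻¹' {π n}ᶜ ∈ v := by
            rw [preimage_compl]; exact not_mem_iff.mp hS
          have h2 := hzF univ Filter.univ_mem _ h1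
          have h3 : n ∈ F univ {π n}ᶜ := by simpa using h2
          exact h3.2.1 rfl
      have hN : F univ univ ∈ z := hzF univ Filter.univ_mem univ (by rw [preimage_univ]; exact Filter.univ_mem)
      refine lemmaNR (v := v) (z := z) (y := y) (g := fun k => idx h (x k)) (N := F univ univ)
        hznp hzv hN ?_ ?_
      · rintro n ⟨hn1, hn2, hn3, hn4⟩
        exact idx_fibre_mem (hw n hn1) hn4
      · rintro n ⟨hn1, hn2, hn3, hn4⟩
        by_contra hc
        apply not_bad (hwE n hn1) (y n) x J h'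
        refine ⟨?_, hc, Filter.mem_of_superset hn3 inter_subset_right, fun k hk => (hx k hk).1,
          hh', hn4⟩
        intro k hk
        have hkJ : k ∈ J := by
          rw [hk] at hn3
          have : k ∈ univ ∩ J := by simpa using hn3
          exact this.2
        have h5 : w n = x k := by
          rw [hn4, hk]
          apply ultra_ext
          intro s hs
          rw [mem_bind] at hs
          simpa using hs
        obtain ⟨C, hC1, hC2⟩ := (hx k hkJ).2.2
        apply hC2 n hn1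
        rw [h5]
        exact hC1

end Main

end Pool.Agent.Lib.MP_254ca6_gt
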